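import Pool.Agent.Helper28.BA.GoalsA
import Pool.Agent.Helper28.BA.GoalsB

/-! # Project BA, packet THMA -/

open Complex MeasureTheory Set Filter Topology
open Pool.Agent.Helper28.BA

namespace Pool.Agent.Helper85.BA

lemma bd_mono {q N M : ℝ} (hq : 0 ≤ q) (hN : 0 ≤ N) (hNM : N ≤ M) (h : Bd q N) : Bd q M := by
  intro f hf hc
  refine (h f hf hc).trans ?_
  have h1 : 0 ≤ ∫ z, ‖dz f z‖ ^ q := integral_nonneg fun z => Real.rpow_nonneg (norm_nonneg _) _
  exact mul_le_mul_of_nonneg_right (Real.rpow_le_rpow hN hNM hq) h1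

lemma cont_dz {f : ℂ → ℂ} (hf : ContDiff ℝ 1 f) : Continuous (dz f) := by
  have h := hf.continuous_fderiv (by norm_num)
  unfold dz
  fun_prop

lemma cont_db {f : ℂ → ℂ} (hf : ContDiff ℝ 1 f) : Continuous (db f) := by
  have h := hf.continuous_fderiv (by norm_num)
  unfold db
  fun_prop

lemma supp_dz {f : ℂ → ℂ} (hc : HasCompactSupport f) : HasCompactSupport (dz f) := by
  have h := hc.fderiv (𝕜 := ℝ)
  refine h.mono ?_
  intro z hz
  rw [Function.mem_support] at hz ⊢
  intro h0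
  exact hz (by simp [dz, h0])

lemma supp_db {f : ℂ → ℂ} (hc : HasCompactSupport f) : HasCompactSupport (db f) := by
  have h := hc.fderiv (𝕜 := ℝ)
  refine h.mono ?_
  intro z hz
  rw [Function.mem_support] at hz ⊢
  intro h0
  exact hz (by simp [db, h0])

lemma int_sq {g : ℂ → ℂ} (hg : Continuous g) (hc : HasCompactSupport g) :
    Integrable fun z => ‖g z‖ ^ 2 := by
  refine Continuous.integrable_of_hasCompactSupport (by fun_prop) ?_
  refine hc.mono ?_
  intro z hz
  rw [Function.mem_support] at hz ⊢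
  intro h0
  exact hz (by simp [h0])

lemma bd_two (h6 : S_DET) : Bd 2 1 := by
  intro f hf hc
  have h := h6 f (hf.lipschitzWith_of_hasCompactSupport hc (by norm_num)) hc
  rw [integral_sub (int_sq (cont_dz hf) (supp_dz hc)) (int_sq (cont_db hf) (supp_db hc))] at h
  simp only [Real.rpow_two, one_pow, one_mul]
  linarith

lemma cq_nonneg (q : ℝ) : 0 ≤ cq q := by
  unfold cq
  have h : 0 ≤ ∫ θ in (0 : ℝ)..(2 * Real.pi), |Real.cos θ| ^ q :=
    intervalIntegral.integral_nonneg (by positivity) fun θ _ => Real.rpow_nonneg (abs_nonneg _) _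
  positivity

lemma transfer (h2 : S_DUAL) (p : ℝ) (hp : 1 < p) :
    ∃ q : ℝ, 1 < q ∧ q ≤ 2 ∧ max p (p / (p - 1)) - 1 = 1 / (q - 1) ∧ (p ≤ 4 → 4 / 3 ≤ p →
      4 / 3 ≤ q) ∧ |2 - 4 / p| = 4 / q - 2 ∧ ∀ N, 0 ≤ N → Bd q N → Bd p N := by
  have hp0 : 0 < p - 1 := by linarith
  rcases le_or_gt p 2 with h | h
  · refine ⟨p, hp, h, ?_, fun _ h => h, ?_, fun N _ h => h⟩
    · rw [max_eq_right]
      · field_simp
        ring
      · rw [le_div_iff₀ hp0]
        nlinarith
    · rw [abs_of_nonpos]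
      · ring
      · have : 2 ≤ 4 / p := by
          rw [le_div_iff₀ (by linarith)]
          linarith
        linarith
  · have hq1 : 1 < p / (p - 1) := by
      rw [lt_div_iff₀ hp0]
      linarith
    have hq2 : p / (p - 1) - 1 = 1 / (p - 1) := by
      field_simp
      ring
    have hq3 : p / (p - 1) / (p / (p - 1) - 1) = p := by
      rw [hq2]
      field_simp
    refine ⟨p / (p - 1), hq1, ?_, ?_, ?_, ?_, ?_⟩
    · rw [div_le_iff₀ hp0]
      linarith
    · rw [max_eq_left, hq2]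
      · field_simp
      · rw [div_le_iff₀ hp0]
        nlinarith
    · intro h4 _
      rw [le_div_iff₀ hp0]
      linarith
    · rw [abs_of_nonneg]
      · have : (4 : ℝ) / (p / (p - 1)) = 4 - 4 / p := by
          field_simp
        rw [this]
        ring
      · have : 4 / p ≤ 2 := by
          rw [div_le_iff₀ (by linarith)]
          linarith
        linarith
    · intro N hN hB
      have := h2 _ N hq1 hN hB
      rwa [hq3] at this

lemma raw_le (h1 : S_RAW) (q M : ℝ) (hq : 1 < q) (hq2 : q ≤ 2) (hM : 2 * cq q ^ (1 / q) ≤ M) :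
    Bd q (M / (q - 1)) := by
  have hq0 : 0 < q - 1 := by linarith
  refine bd_mono (by linarith) ?_ ?_ (h1 q hq hq2)
  · exact div_nonneg (mul_nonneg (by norm_num) (Real.rpow_nonneg (cq_nonneg q) _)) hq0.le
  · exact div_le_div_of_nonneg_right hM hq0.le

lemma mid (h1 : S_RAW) (h3 : S_INT) (h4 : S_CQ) (h6 : S_DET) (q : ℝ) (hq : 4 / 3 ≤ q)
    (hq2 : q ≤ 2) : Bd q ((4 : ℝ) ^ (4 / q - 2)) := by
  rcases hq2.lt_or_eq with h | h
  · have hb : Bd (4 / 3) 4 := by
      have := raw_le h1 (4 / 3) (4 / 3) (by norm_num) (by norm_num)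
        (h4.2 (4 / 3) (by norm_num) (by norm_num))
      norm_num at this
      exact this
    have := h3 (4 / 3) q 4 (by norm_num) hq h (by norm_num) hb
    have he : (1 / q - 1 / 2) / (1 / (4 / 3) - 1 / 2) = 4 / q - 2 := by
      have : q ≠ 0 := by linarith
      field_simp
      ring
    rwa [he] at this
  · subst h
    have : (4 : ℝ) ^ ((4 : ℝ) / 2 - 2) = 1 := by norm_num
    rw [this]
    exact bd_two h6

lemma all (h1 : S_RAW) (h3 : S_INT) (h4 : S_CQ) (h5 : S_Q43) (h6 : S_DET) (q : ℝ) (hq : 1 < q)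
    (hq2 : q ≤ 2) : Bd q (4 / 3 / (q - 1)) := by
  rcases le_total q (4 / 3) with h | h
  · exact raw_le h1 q (4 / 3) hq hq2 (h4.2 q hq h)
  · exact bd_mono (by linarith) (Real.rpow_nonneg (by norm_num) _) (h5 q h hq2)
      (mid h1 h3 h4 h6 q h hq2)

lemma near_one (h4 : S_CQ) (ε : ℝ) (hε : 0 < ε) :
    ∃ δ : ℝ, 0 < δ ∧ ∀ q : ℝ, 1 < q → q - 1 < δ → 2 * cq q ^ (1 / q) ≤ 4 / Real.pi + ε := by
  have hpi := Real.pi_pos
  have hc : ContinuousAt (fun q : ℝ => 2 * (2 / Real.pi) ^ (1 / q)) 1 := by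
    refine ContinuousAt.mul continuousAt_const ?_
    refine ContinuousAt.rpow continuousAt_const ?_ ?_
    · exact ContinuousAt.div continuousAt_const continuousAt_id (by norm_num)
    · left
      positivity
  have hv : (fun q : ℝ => 2 * (2 / Real.pi) ^ (1 / q)) 1 < 4 / Real.pi + ε := by
    have : (fun q : ℝ => 2 * (2 / Real.pi) ^ (1 / q)) 1 = 4 / Real.pi := by
      simp only [div_one, Real.rpow_one]
      ring
    rw [this]
    linarith
  have he := hc.eventually_lt continuousAt_const hv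
  rw [Metric.eventually_nhds_iff] at he
  obtain ⟨δ, hδ, hd⟩ := he
  refine ⟨δ, hδ, fun q hq hqd => ?_⟩
  have h := hd (y := q) (by rw [Real.dist_eq, abs_of_pos (by linarith)]; exact hqd)
  refine le_trans ?_ h.le
  have hr : cq q ^ (1 / q) ≤ (2 / Real.pi) ^ (1 / q) :=
    Real.rpow_le_rpow (cq_nonneg q) (h4.1 q hq) (by positivity)
  have : 2 * cq q ^ (1 / q) ≤ 2 * (2 / Real.pi) ^ (1 / q) := by linarith
  exact this

theorem THMA (h1 : S_RAW) (h2 : S_DUAL) (h3 : S_INT) (h4 : S_CQ) (h5 : S_Q43) (h6 : S_DET) :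
    S_THMA := by
  refine ⟨?_, ?_, ?_⟩
  · intro p hp
    obtain ⟨q, hq1, hq2, hm, -, -, ht⟩ := transfer h2 p hp
    rw [hm]
    have hq0 : 0 < q - 1 := by linarith
    refine ht _ (by positivity) ?_
    have := all h1 h3 h4 h5 h6 q hq1 hq2
    rwa [div_eq_mul_one_div (4 / 3 : ℝ)] at this
  · intro p hp hp4
    obtain ⟨q, hq1, hq2, -, hq3, he, ht⟩ := transfer h2 p (by linarith)
    rw [he]
    exact ht _ (Real.rpow_nonneg (by norm_num) _) (mid h1 h3 h4 h6 q (hq3 hp4 hp) hq2)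
  · intro ε hε
    obtain ⟨δ, hδ, hd⟩ := near_one h4 ε hε
    refine ⟨2 + 1 / δ, fun p hp hP => ?_⟩
    obtain ⟨q, hq1, hq2, hm, -, -, ht⟩ := transfer h2 p hp
    have hpi := Real.pi_pos
    have hq0 : 0 < q - 1 := by linarith
    have hlt : q - 1 < δ := by
      have h7 : 1 / δ < 1 / (q - 1) := by
        rw [← hm]
        linarith
      exact lt_of_one_div_lt_one_div hδ h7
    rw [hm]
    refine ht _ (by positivity) ?_
    have := raw_le h1 q _ hq1 hq2 (hd q hq1 hlt)
    rwa [div_eq_mul_one_div (4 / Real.pi + ε : ℝ)] at this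

end Pool.Agent.Helper85.BA
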